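import Pool.Agent.E8helper49.LV.Forms

/-!
Equivalent forms of Montgomery's large value conjecture: the proofs.
-/

set_option autoImplicit false

open Finset

namespace Pool.Agent.E8helper49.LV

/-- the discrepancy form -/
def Disc (A : ℝ) : Prop :=
  ∀ ε : ℝ, ε > 0 → ∃ C : ℝ, ∀ N : ℕ, 1 ≤ N → ∀ W : Finset ℤ, Pts A N W → W.card ≤ N →
    ∀ S ⊆ Icc N (2 * N),
      ‖∑ t ∈ W, ∑ n ∈ S, nit t n‖ ≤ C * (N:ℝ) ^ (1 + ε) * √(W.card : ℝ)

/-- the `k`-parameter form -/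
def Grid (A : ℝ) : Prop :=
  ∀ (k : ℕ) (ε : ℝ), ε > 0 → ∃ C : ℝ, ∀ (H : Type) [NormedAddCommGroup H]
    [InnerProductSpace ℂ H] (N : Fin k → ℕ) (W : Fin k → Finset ℤ), (∀ i, 1 ≤ N i) →
    (∀ i, Pts A (N i) (W i)) → ∀ b : (Fin k → ℕ) → H, (∀ n, ‖b n‖ ≤ 1) →
    ∑ t ∈ Fintype.piFinset W, ‖∑ n ∈ Fintype.piFinset (fun i => Icc (N i) (2 * N i)),
        (∏ i, nit (t i) (n i)) • b n‖ ^ 2 ≤
      C * ∏ i, ((N i : ℝ) ^ ε * ((N i : ℝ) ^ 2 + N i * (W i).card))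

lemma disc_of_ms {A : ℝ} (h : ∀ ε : ℝ, 0 < ε →
    ∃ C : ℝ, 0 < C ∧ ∀ N : ℕ, 1 ≤ N → ∀ W, Pts A N W → ∀ b : ℕ → ℂ, (∀ n, b n = 0 ∨ b n = 1) →
      ∑ t ∈ W, ‖∑ n ∈ Icc N (2 * N), b n * nit t n‖ ^ 2 ≤
        C * ((N:ℝ) ^ ε * ((N:ℝ) ^ 2 + N * W.card))) : Disc A := by
  classical
  intro ε hε
  obtain ⟨C, hC0, hC⟩ := h (2 * ε) (by positivity)
  refine ⟨√(2 * C), fun N hN W hW hWN S hS => ?_⟩
  have hN' : (1:ℝ) ≤ N := by exact_mod_cast hN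
  have hN0 : (0:ℝ) < N := by linarith
  have h1 := hC N hN W hW (fun n => if n ∈ S then 1 else 0) (fun n => by
    split_ifs
    · exact Or.inr rfl
    · exact Or.inl rfl)
  have e1 : ∀ t : ℤ, ∑ n ∈ Icc N (2 * N), (if n ∈ S then (1:ℂ) else 0) * nit t n =
      ∑ n ∈ S, nit t n := by
    intro t
    simp only [ite_mul, one_mul, zero_mul]
    rw [← sum_filter]
    refine sum_congr ?_ fun _ _ => rfl
    ext n
    rw [mem_filter]
    exact ⟨fun h => h.2, fun h => ⟨hS h, h⟩⟩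
  rw [sum_congr rfl fun t _ => by rw [e1 t]] at h1
  have h2 : (∑ t ∈ W, ‖∑ n ∈ S, nit t n‖) ^ 2 ≤ W.card * ∑ t ∈ W, ‖∑ n ∈ S, nit t n‖ ^ 2 :=
    sq_sum_le_card_mul_sum_sq
  have hWN' : (W.card : ℝ) ≤ N := by exact_mod_cast hWN
  have h3 : C * ((N:ℝ) ^ (2 * ε) * ((N:ℝ) ^ 2 + N * W.card)) ≤
      2 * C * ((N:ℝ) ^ (1 + ε)) ^ 2 := by
    have e2 : ((N:ℝ) ^ (1 + ε)) ^ 2 = (N:ℝ) ^ (2 * ε) * (N:ℝ) ^ 2 := by
      rw [← Real.rpow_natCast, ← Real.rpow_natCast, ← Real.rpow_mul hN0.le,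
        ← Real.rpow_add hN0]
      congr 1
      push_cast
      ring
    rw [e2]
    have h4 : (N:ℝ) ^ 2 + N * W.card ≤ 2 * (N:ℝ) ^ 2 := by nlinarith
    have h5 : 0 ≤ C * (N:ℝ) ^ (2 * ε) := by positivity
    nlinarith [mul_le_mul_of_nonneg_left h4 h5]
  have h4 : (∑ t ∈ W, ‖∑ n ∈ S, nit t n‖) ^ 2 ≤
      (√(2 * C) * (N:ℝ) ^ (1 + ε) * √(W.card : ℝ)) ^ 2 := by
    rw [mul_pow, mul_pow, Real.sq_sqrt (by positivity), Real.sq_sqrt (by positivity)]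
    refine h2.trans ?_
    rw [mul_comm]
    exact mul_le_mul_of_nonneg_right (h1.trans h3) (by positivity)
  refine (norm_sum_le _ _).trans ?_
  exact (pow_le_pow_iff_left₀ (sum_nonneg fun _ _ => norm_nonneg _) (by positivity)
    two_ne_zero).1 h4

lemma lv_of_disc {A : ℝ} (hA : 1 ≤ A) (h : Disc A) : LargeValues A (fun b => ∀ n, ‖b n‖ ≤ 1) := by
  classical
  intro σ hσ ε hε
  set η : ℝ := min (ε / 2) ((σ - 1 / 2) / 2) with hη
  have hη0 : 0 < η := lt_min (by positivity) (by linarith)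
  have hη1 : η ≤ ε / 2 := min_le_left _ _
  have hη2 : η ≤ (σ - 1 / 2) / 2 := min_le_right _ _
  obtain ⟨C₀, hC₀⟩ := h η hη0
  set C : ℝ := max C₀ 1 with hC
  have hC1 : 1 ≤ C := le_max_right _ _
  set κ : ℝ := 2 * σ - 1 - 2 * η with hκ
  have hκ0 : 0 < κ := by rw [hκ]; linarith
  set M : ℝ := 256 * C ^ 2 with hM
  have hM1 : 1 ≤ M := by nlinarith
  set a : ℝ := max (A - (2 - 2 * σ + ε)) 0 with ha
  have ha0 : 0 ≤ a := le_max_right _ _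
  refine ⟨M + 2 * M ^ (a / κ), ?_⟩
  intro N hN T hNT hTA b hb W hW
  have hN' : (1:ℝ) ≤ N := by exact_mod_cast hN
  have hN0 : (0:ℝ) < N := by linarith
  have hPts : Pts A N W := fun t ht => ⟨(hW t ht).1, (hW t ht).2.1.trans hTA⟩
  -- the main estimate, for at most `N` points
  have main : ∀ V ⊆ W, V.card ≤ N → (V.card : ℝ) ≤ M * (N:ℝ) ^ (2 - 2 * σ + 2 * η) := by
    intro V hV hVN
    obtain ⟨V', hV', S, hS, h1⟩ := one_of_cut V (Icc N (2 * N)) nit b hb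
    have h2 := hC₀ N hN V' (hPts.mono (hV'.trans hV)) ((card_le_card hV').trans hVN) S hS
    have h3 : C₀ * (N:ℝ) ^ (1 + η) * √(V'.card : ℝ) ≤ C * (N:ℝ) ^ (1 + η) * √(V.card : ℝ) := by
      have h4 : √(V'.card : ℝ) ≤ √(V.card : ℝ) :=
        Real.sqrt_le_sqrt (by exact_mod_cast card_le_card hV')
      have h5 : C₀ * (N:ℝ) ^ (1 + η) ≤ C * (N:ℝ) ^ (1 + η) :=
        mul_le_mul_of_nonneg_right (le_max_left _ _) (by positivity)
      have h6 : 0 ≤ C * (N:ℝ) ^ (1 + η) := by positivity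
      exact (mul_le_mul_of_nonneg_right h5 (Real.sqrt_nonneg _)).trans
        (mul_le_mul_of_nonneg_left h4 h6)
    have h4 : V.card * (N:ℝ) ^ σ ≤ ∑ t ∈ V, ‖∑ n ∈ Icc N (2 * N), b n * nit t n‖ := by
      rw [← nsmul_eq_mul, ← sum_const]
      exact sum_le_sum fun t ht => (hW t (hV ht)).2.2.le
    have h5 : V.card * (N:ℝ) ^ σ ≤ 16 * (C * (N:ℝ) ^ (1 + η) * √(V.card : ℝ)) :=
      h4.trans (h1.trans (mul_le_mul_of_nonneg_left (h2.trans h3) (by norm_num)))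
    rcases Nat.eq_zero_or_pos V.card with h0 | h0
    · rw [h0]
      push_cast
      positivity
    · have hV0 : (0:ℝ) < V.card := by exact_mod_cast h0
      have hs0 : 0 < √(V.card : ℝ) := Real.sqrt_pos.2 hV0
      have hs2 : √(V.card : ℝ) * √(V.card : ℝ) = V.card := Real.mul_self_sqrt hV0.le
      have h6 : √(V.card : ℝ) * (N:ℝ) ^ σ ≤ 16 * C * (N:ℝ) ^ (1 + η) := by
        have : √(V.card : ℝ) * (√(V.card : ℝ) * (N:ℝ) ^ σ) ≤
            √(V.card : ℝ) * (16 * C * (N:ℝ) ^ (1 + η)) := by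
          rw [← mul_assoc, hs2]
          linarith
        exact le_of_mul_le_mul_left this hs0
      have h7 : (√(V.card : ℝ) * (N:ℝ) ^ σ) ^ 2 ≤ (16 * C * (N:ℝ) ^ (1 + η)) ^ 2 :=
        pow_le_pow_left₀ (by positivity) h6 2
      have e1 : (√(V.card : ℝ) * (N:ℝ) ^ σ) ^ 2 = V.card * (N:ℝ) ^ (2 * σ) := by
        rw [mul_pow, Real.sq_sqrt hV0.le, ← Real.rpow_natCast ((N:ℝ) ^ σ), ← Real.rpow_mul hN0.le]
        congr 2
        push_cast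
        ring
      have e2 : (16 * C * (N:ℝ) ^ (1 + η)) ^ 2 = (M * (N:ℝ) ^ (2 - 2 * σ + 2 * η)) *
          (N:ℝ) ^ (2 * σ) := by
        rw [mul_assoc M, ← Real.rpow_add hN0, mul_pow, ← Real.rpow_natCast ((N:ℝ) ^ (1 + η)),
          ← Real.rpow_mul hN0.le, hM]
        have : (1 + η) * ((2:ℕ):ℝ) = 2 - 2 * σ + 2 * η + 2 * σ := by push_cast; ring
        rw [this]
        ring
      rw [e1, e2] at h7
      exact le_of_mul_le_mul_right h7 (by positivity)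
  rcases le_total W.card N with hc | hc
  · refine (main W (Subset.refl _) hc).trans ?_
    have h1 : (N:ℝ) ^ (2 - 2 * σ + 2 * η) ≤ (N:ℝ) ^ (2 - 2 * σ + ε) :=
      Real.rpow_le_rpow_of_exponent_le hN' (by linarith)
    have h2 : 0 ≤ 2 * M ^ (a / κ) := by positivity
    have h3 : 0 ≤ (N:ℝ) ^ (2 - 2 * σ + ε) := by positivity
    nlinarith [mul_le_mul_of_nonneg_left h1 (by linarith : 0 ≤ M)]
  · obtain ⟨V, hV, hVc⟩ := exists_subset_card_eq hc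
    have h1 := main V hV hVc.le
    rw [hVc] at h1
    have h2 : (N:ℝ) ^ κ ≤ M := by
      have e1 : (N:ℝ) = (N:ℝ) ^ κ * (N:ℝ) ^ (2 - 2 * σ + 2 * η) := by
        rw [← Real.rpow_add hN0]
        have : κ + (2 - 2 * σ + 2 * η) = 1 := by rw [hκ]; ring
        rw [this, Real.rpow_one]
      have h3 : (N:ℝ) ^ κ * (N:ℝ) ^ (2 - 2 * σ + 2 * η) ≤ M * (N:ℝ) ^ (2 - 2 * σ + 2 * η) := by
        rw [← e1]; exact h1
      exact le_of_mul_le_mul_right h3 (by positivity)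
    have h3 : (N:ℝ) ^ a ≤ M ^ (a / κ) := by
      have e1 : (N:ℝ) ^ a = ((N:ℝ) ^ κ) ^ (a / κ) := by
        rw [← Real.rpow_mul hN0.le]
        congr 1
        field_simp
      rw [e1]
      exact Real.rpow_le_rpow (by positivity) h2 (by positivity)
    have h4 : (N:ℝ) ^ A ≤ (N:ℝ) ^ a * (N:ℝ) ^ (2 - 2 * σ + ε) := by
      rw [← Real.rpow_add hN0]
      refine Real.rpow_le_rpow_of_exponent_le hN' ?_
      have : A - (2 - 2 * σ + ε) ≤ a := le_max_left _ _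
      linarith
    have h5 := hPts.card (by linarith : 0 ≤ A) hN
    have h6 : 0 ≤ (N:ℝ) ^ (2 - 2 * σ + ε) := by positivity
    have h7 := mul_le_mul_of_nonneg_right h3 h6
    nlinarith

lemma grid_of_lv {A : ℝ} (hA : 1 ≤ A) (h : LargeValues A (fun b => ∀ n, ‖b n‖ ≤ 1)) :
    Grid A := by
  classical
  intro k ε hε
  obtain ⟨C, hC0, hC⟩ := ms_of_lv hA _ (fun b hb => hb) h ε hε
  refine ⟨(96 * C) ^ k, ?_⟩
  intro H _ _ N W hN hW b hb
  have hex : ∀ i, ∃ mu : ℕ → ℝ, (∀ n, 0 ≤ mu n) ∧ ∑ n ∈ Icc (N i) (2 * N i), mu n = 1 ∧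
      ∀ b : ℕ → ℂ, ∑ t ∈ W i, ‖∑ n ∈ Icc (N i) (2 * N i), b n * nit t n‖ ^ 2 ≤
        96 * (C * ((N i:ℝ) ^ ε * ((N i:ℝ) ^ 2 + N i * (W i).card))) *
          ∑ n ∈ Icc (N i) (2 * N i), mu n * ‖b n‖ ^ 2 := fun i =>
    little (W i) (Icc (N i) (2 * N i)) ⟨N i, by rw [mem_Icc]; omega⟩ nit
      (fun b hb => hC (N i) (hN i) (W i) (hW i) b hb)
  choose mu hmu0 hmu1 hmu using hex
  have h1 := pi_of nit k W (fun i => Icc (N i) (2 * N i))
    (fun i => 96 * (C * ((N i:ℝ) ^ ε * ((N i:ℝ) ^ 2 + N i * (W i).card)))) mu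
    (fun i => by positivity) hmu0 hmu
  have h2 := hilbert_of (Fintype.piFinset W) (Fintype.piFinset (fun i => Icc (N i) (2 * N i)))
    (fun t n => ∏ i, nit (t i) (n i)) (fun n => ∏ i, mu i (n i)) h1 b
  refine h2.trans ?_
  have h3 : ∑ n ∈ Fintype.piFinset (fun i => Icc (N i) (2 * N i)),
      (∏ i, mu i (n i)) * ‖b n‖ ^ 2 ≤ 1 := by
    have e1 : ∑ n ∈ Fintype.piFinset (fun i => Icc (N i) (2 * N i)), ∏ i, mu i (n i) = 1 := by
      rw [← prod_univ_sum]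
      exact prod_eq_one fun i _ => hmu1 i
    rw [← e1]
    refine sum_le_sum fun n _ => ?_
    exact mul_le_of_le_one_right (prod_nonneg fun i _ => hmu0 i _)
      (pow_le_one₀ (norm_nonneg _) (hb n))
  have h4 : (0:ℝ) ≤ ∏ i, (96 * (C * ((N i:ℝ) ^ ε * ((N i:ℝ) ^ 2 + N i * (W i).card)))) :=
    prod_nonneg fun i _ => by positivity
  refine (mul_le_mul_of_nonneg_left h3 h4).trans (le_of_eq ?_)
  rw [mul_one]
  have e2 : ∀ i, 96 * (C * ((N i:ℝ) ^ ε * ((N i:ℝ) ^ 2 + N i * (W i).card))) =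
      (96 * C) * ((N i:ℝ) ^ ε * ((N i:ℝ) ^ 2 + N i * (W i).card)) := fun i => by ring
  rw [prod_congr rfl fun i _ => e2 i, prod_mul_distrib, prod_const, card_univ, Fintype.card_fin]

lemma ms_of_grid {A : ℝ} (h : Grid A) (ε : ℝ) (hε : 0 < ε) :
    ∃ C : ℝ, 0 < C ∧ ∀ N : ℕ, 1 ≤ N → ∀ W, Pts A N W → ∀ b : ℕ → ℂ, (∀ n, b n = 0 ∨ b n = 1) →
      ∑ t ∈ W, ‖∑ n ∈ Icc N (2 * N), b n * nit t n‖ ^ 2 ≤
        C * ((N:ℝ) ^ ε * ((N:ℝ) ^ 2 + N * W.card)) := by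
  classical
  obtain ⟨C, hC⟩ := h 1 ε hε
  refine ⟨max C 1, by positivity, fun N hN W hW b hb => ?_⟩
  have h1 := hC ℂ (fun _ => N) (fun _ => W) (fun _ => hN) (fun _ => hW) (fun n => b (n 0))
    (fun n => by rcases hb (n 0) with h | h <;> rw [h] <;> simp)
  have e1 : ∀ t : ℤ, ∑ n ∈ Icc N (2 * N), b n * nit t n =
      ∑ n ∈ Fintype.piFinset (fun _ : Fin 1 => Icc N (2 * N)), (∏ i, nit t (n i)) • b (n 0) := by
    intro t
    symm
    refine sum_equiv (Equiv.funUnique (Fin 1) ℕ) (fun n => ?_) (fun n _ => ?_)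
    · rw [Fintype.mem_piFinset]
      simp
    · simp [mul_comm]
  have e2 : ∑ t ∈ W, ‖∑ n ∈ Icc N (2 * N), b n * nit t n‖ ^ 2 =
      ∑ t ∈ Fintype.piFinset (fun _ : Fin 1 => W),
        ‖∑ n ∈ Fintype.piFinset (fun _ : Fin 1 => Icc N (2 * N)),
          (∏ i, nit (t i) (n i)) • b (n 0)‖ ^ 2 := by
    symm
    refine sum_equiv (Equiv.funUnique (Fin 1) ℤ) (fun n => ?_) (fun t _ => ?_)
    · rw [Fintype.mem_piFinset]
      simp
    · rw [e1]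
      congr 2
  rw [e2]
  refine h1.trans ?_
  rw [prod_const, card_univ, Fintype.card_fin, pow_one]
  exact mul_le_mul_of_nonneg_right (le_max_left _ _) (by positivity)

theorem tfae (A : ℝ) (hA : 1 ≤ A) : List.TFAE [
    LargeValues A (fun b => ∀ n, ‖b n‖ ≤ 1),
    LargeValues A (fun b => ∀ n, b n = 0 ∨ b n = 1),
    Disc A,
    Grid A] := by
  tfae_have 1 → 2 := by
    intro h σ hσ ε hε
    obtain ⟨C, hC⟩ := h σ hσ ε hε
    exact ⟨C, fun N hN T h1 h2 b hb => hC N hN T h1 h2 b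
      (fun n => by rcases hb n with h | h <;> rw [h] <;> simp)⟩
  tfae_have 2 → 3 := fun h => disc_of_ms (fun ε hε => ms_of_lv hA _ (fun b hb n => by
    rcases hb n with h | h <;> rw [h] <;> simp) h ε hε)
  tfae_have 3 → 1 := lv_of_disc hA
  tfae_have 1 → 4 := grid_of_lv hA
  tfae_have 4 → 3 := fun h => disc_of_ms (ms_of_grid h)
  tfae_finish

end Pool.Agent.E8helper49.LV
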