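import Pool.Agent.E8helper49.LV.Little

/-!
Equivalent forms of Montgomery's large value conjecture: sets, discrepancy, mean squares, Hilbert
space valued coefficients in any number of variables.
-/

set_option autoImplicit false

open Finset

namespace Pool.Agent.E8helper49.LV

/-- `n^{it}` -/
noncomputable def nit (t : ℤ) (n : ℕ) : ℂ :=
  Complex.exp ((((t : ℝ) * Real.log (n : ℝ) : ℝ) : ℂ) * Complex.I)

lemma norm_nit (t : ℤ) (n : ℕ) : ‖nit t n‖ = 1 := by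
  unfold nit
  exact Complex.norm_exp_ofReal_mul_I _

/-- the assertion of Q1 for a fixed `A`, for the coefficient sequences of the class `P` -/
def LargeValues (A : ℝ) (P : (ℕ → ℂ) → Prop) : Prop :=
  ∀ σ : ℝ, σ > 1/2 → ∀ ε : ℝ, ε > 0 → ∃ C : ℝ,
    ∀ N : ℕ, 1 ≤ N → ∀ T : ℝ, (N:ℝ) ≤ T → T ≤ (N:ℝ) ^ A →
    ∀ b : ℕ → ℂ, P b →
    ∀ W : Finset ℤ,
      (∀ t ∈ W, 0 ≤ (t:ℝ) ∧ (t:ℝ) ≤ T ∧
        (N:ℝ) ^ σ < ‖∑ n ∈ Finset.Icc N (2 * N),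
            b n * Complex.exp ((((t:ℝ) * Real.log (n:ℝ) : ℝ) : ℂ) * Complex.I)‖) →
      (W.card : ℝ) ≤ C * (N:ℝ) ^ (2 - 2 * σ + ε)

/-- `W` is a set of integers of `[0, N^A]` -/
def Pts (A : ℝ) (N : ℕ) (W : Finset ℤ) : Prop := ∀ t ∈ W, 0 ≤ (t:ℝ) ∧ (t:ℝ) ≤ (N:ℝ) ^ A

lemma Pts.mono {A : ℝ} {N : ℕ} {V W : Finset ℤ} (h : Pts A N W) (hVW : V ⊆ W) : Pts A N V :=
  fun t ht => h t (hVW ht)

lemma Pts.card {A : ℝ} (hA : 0 ≤ A) {N : ℕ} (hN : 1 ≤ N) {W : Finset ℤ} (h : Pts A N W) :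
    (W.card : ℝ) ≤ 2 * (N:ℝ) ^ A := by
  have hN' : (1:ℝ) ≤ N := by exact_mod_cast hN
  have h1 : (1:ℝ) ≤ (N:ℝ) ^ A := Real.one_le_rpow hN' hA
  have h2 : W ⊆ Icc 0 ⌊(N:ℝ) ^ A⌋ := by
    intro t ht
    rw [mem_Icc]
    exact ⟨by exact_mod_cast (h t ht).1, Int.le_floor.2 (h t ht).2⟩
  have h3 := card_le_card h2
  rw [Int.card_Icc] at h3
  have h4 : (0:ℤ) ≤ ⌊(N:ℝ) ^ A⌋ := Int.floor_nonneg.2 (by linarith)
  have h5 : ((⌊(N:ℝ) ^ A⌋ + 1 - 0).toNat : ℝ) = (⌊(N:ℝ) ^ A⌋ : ℝ) + 1 := by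
    have : ((⌊(N:ℝ) ^ A⌋ + 1 - 0).toNat : ℤ) = ⌊(N:ℝ) ^ A⌋ + 1 := by
      rw [Int.toNat_of_nonneg (by omega)]; ring
    exact_mod_cast this
  have h6 : (W.card : ℝ) ≤ ((⌊(N:ℝ) ^ A⌋ + 1 - 0).toNat : ℝ) := by exact_mod_cast h3
  rw [h5] at h6
  have h7 := Int.floor_le ((N:ℝ) ^ A)
  linarith

/-- level sets -/
lemma level {N : ℝ} (hN : 1 ≤ N) {δ : ℝ} (hδ : 0 < δ) {x : ℝ} (hx0 : 0 ≤ x) : ∀ J : ℕ,
    x ≤ 2 * N ^ (1/2 + (J+1)*δ) →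
    x ^ 2 ≤ 4 * N ^ (1 + 2*δ) +
      ∑ j ∈ range J, if N ^ (1/2 + (j+1)*δ) < x then 4 * N ^ (1 + 2*(j+2)*δ) else 0 := by
  have hN0 : 0 < N := by linarith
  have sq : ∀ a : ℝ, (2 * N ^ a) ^ 2 = 4 * N ^ (2 * a) := by
    intro a
    rw [mul_pow, ← Real.rpow_natCast (N ^ a) 2, ← Real.rpow_mul hN0.le]
    norm_num
    rw [mul_comm a 2]
  intro J
  induction J with
  | zero =>
    intro h
    rw [range_zero, sum_empty, add_zero]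
    refine (pow_le_pow_left₀ hx0 h 2).trans (le_of_eq ?_)
    rw [sq]
    congr 2
    push_cast
    ring
  | succ J ih =>
    intro h
    rw [sum_range_succ]
    by_cases hx : N ^ (1/2 + (J+1)*δ) < x
    · rw [if_pos hx]
      have h1 : x ^ 2 ≤ 4 * N ^ (1 + 2*(J+2)*δ) := by
        refine (pow_le_pow_left₀ hx0 h 2).trans (le_of_eq ?_)
        rw [sq]
        congr 2
        push_cast
        ring
      have h2 : 0 ≤ 4 * N ^ (1 + 2*δ) := by positivity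
      have h3 : 0 ≤ ∑ j ∈ range J, if N ^ (1/2 + (j+1)*δ) < x then 4 * N ^ (1 + 2*(j+2)*δ)
          else 0 := sum_nonneg fun j _ => by split_ifs <;> positivity
      linarith
    · rw [if_neg hx, add_zero]
      apply ih
      have := Real.rpow_nonneg hN0.le (1/2 + (J+1)*δ)
      linarith [not_lt.1 hx]

/-- mean squares from large values -/
lemma ms_of_lv {A : ℝ} (hA : 1 ≤ A) (P : (ℕ → ℂ) → Prop) (hP : ∀ b, P b → ∀ n, ‖b n‖ ≤ 1)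
    (h : LargeValues A P) (ε : ℝ) (hε : 0 < ε) :
    ∃ C : ℝ, 0 < C ∧ ∀ N : ℕ, 1 ≤ N → ∀ W, Pts A N W → ∀ b, P b →
      ∑ t ∈ W, ‖∑ n ∈ Icc N (2 * N), b n * nit t n‖ ^ 2 ≤
        C * ((N:ℝ) ^ ε * ((N:ℝ) ^ 2 + N * W.card)) := by
  set δ := ε / 3 with hδ
  have hδ0 : 0 < δ := by positivity
  set J := ⌈1 / (2 * δ)⌉₊ with hJ
  have hJδ : 1 / 2 ≤ J * δ := by
    have h1 : 1 / (2 * δ) ≤ J := Nat.le_ceil _
    rw [div_le_iff₀ (by positivity)] at h1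
    linarith
  have hσ : ∀ j : ℕ, 1 / 2 + ((j:ℝ) + 1) * δ > 1 / 2 := fun j => by
    have : 0 < ((j:ℝ) + 1) * δ := by positivity
    linarith
  choose C hC using fun j : ℕ => h (1/2 + ((j:ℝ)+1) * δ) (hσ j) δ hδ0
  refine ⟨4 + ∑ j ∈ range J, 4 * |C j|, ?_, ?_⟩
  · have : 0 ≤ ∑ j ∈ range J, 4 * |C j| := sum_nonneg fun j _ => by positivity
    linarith
  intro N hN W hW b hb
  have hN' : (1:ℝ) ≤ N := by exact_mod_cast hN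
  have hN0 : (0:ℝ) < N := by linarith
  set d : ℤ → ℝ := fun t => ‖∑ n ∈ Icc N (2 * N), b n * nit t n‖ with hd
  have hd0 : ∀ t, 0 ≤ d t := fun t => norm_nonneg _
  have hd2 : ∀ t, d t ≤ 2 * N := by
    intro t
    refine (norm_sum_le _ _).trans ?_
    have h1 : ∑ n ∈ Icc N (2 * N), ‖b n * nit t n‖ ≤ ∑ n ∈ Icc N (2 * N), (1:ℝ) := by
      refine sum_le_sum fun n _ => ?_
      rw [norm_mul, norm_nit, mul_one]
      exact hP b hb n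
    refine h1.trans ?_
    rw [sum_const, Nat.card_Icc, nsmul_eq_mul, mul_one]
    have : 2 * N + 1 - N = N + 1 := by omega
    rw [this]
    push_cast
    linarith
  have hd3 : ∀ t, d t ≤ 2 * (N:ℝ) ^ (1/2 + ((J:ℝ)+1)*δ) := by
    intro t
    refine (hd2 t).trans ?_
    have : (N:ℝ) ^ (1:ℝ) ≤ (N:ℝ) ^ (1/2 + ((J:ℝ)+1)*δ) :=
      Real.rpow_le_rpow_of_exponent_le hN' (by nlinarith)
    rw [Real.rpow_one] at this
    linarith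
  have h1 : ∑ t ∈ W, d t ^ 2 ≤ ∑ t ∈ W, (4 * (N:ℝ) ^ (1 + 2*δ) +
      ∑ j ∈ range J, if (N:ℝ) ^ (1/2 + ((j:ℝ)+1)*δ) < d t then 4 * (N:ℝ) ^ (1 + 2*((j:ℝ)+2)*δ)
        else 0) := sum_le_sum fun t _ => level hN' hδ0 (hd0 t) J (hd3 t)
  rw [sum_add_distrib, sum_const, sum_comm] at h1
  have h2 : ∀ j ∈ range J, ∑ t ∈ W, (if (N:ℝ) ^ (1/2 + ((j:ℝ)+1)*δ) < d t then
      4 * (N:ℝ) ^ (1 + 2*((j:ℝ)+2)*δ) else 0) ≤ 4 * |C j| * ((N:ℝ) ^ ε * (N:ℝ) ^ 2) := by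
    intro j _
    rw [← sum_filter, sum_const, nsmul_eq_mul]
    have h3 := hC j N hN ((N:ℝ) ^ A) (by
      calc (N:ℝ) = (N:ℝ) ^ (1:ℝ) := (Real.rpow_one _).symm
        _ ≤ _ := Real.rpow_le_rpow_of_exponent_le hN' hA) le_rfl b hb
      (W.filter (fun t => (N:ℝ) ^ (1/2 + ((j:ℝ)+1)*δ) < d t)) (fun t ht => by
        rw [mem_filter] at ht
        exact ⟨(hW t ht.1).1, (hW t ht.1).2, ht.2⟩)
    have h4 : C j * (N:ℝ) ^ (2 - 2 * (1/2 + ((j:ℝ)+1) * δ) + δ) ≤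
        |C j| * (N:ℝ) ^ (2 - 2 * (1/2 + ((j:ℝ)+1) * δ) + δ) :=
      mul_le_mul_of_nonneg_right (le_abs_self _) (by positivity)
    refine (mul_le_mul_of_nonneg_right (h3.trans h4) (by positivity)).trans (le_of_eq ?_)
    have e1 : (N:ℝ) ^ ε * (N:ℝ) ^ 2 = (N:ℝ) ^ (2 - 2 * (1/2 + ((j:ℝ)+1) * δ) + δ) *
        (N:ℝ) ^ (1 + 2*((j:ℝ)+2)*δ) := by
      rw [← Real.rpow_natCast, ← Real.rpow_add hN0, ← Real.rpow_add hN0]
      congr 1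
      push_cast
      rw [hδ]
      ring
    rw [e1]
    ring
  have h3 := sum_le_sum h2
  rw [← sum_mul] at h3
  have h4 : (W.card : ℕ) • (4 * (N:ℝ) ^ (1 + 2*δ)) ≤ 4 * ((N:ℝ) ^ ε * (N * W.card)) := by
    rw [nsmul_eq_mul]
    have h5 : (N:ℝ) ^ (1 + 2*δ) ≤ (N:ℝ) ^ ε * N := by
      nth_rewrite 3 [← Real.rpow_one (N:ℝ)]
      rw [← Real.rpow_add hN0]
      exact Real.rpow_le_rpow_of_exponent_le hN' (by rw [hδ]; linarith)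
    have h6 : (0:ℝ) ≤ W.card := Nat.cast_nonneg _
    nlinarith [mul_le_mul_of_nonneg_left h5 h6]
  have h5 : 0 ≤ ∑ j ∈ range J, 4 * |C j| := sum_nonneg fun j _ => by positivity
  have h6 : (0:ℝ) ≤ (N:ℝ) ^ ε * (N * W.card) := by positivity
  have h7 : (0:ℝ) ≤ (N:ℝ) ^ ε * (N:ℝ) ^ 2 := by positivity
  calc ∑ t ∈ W, d t ^ 2 ≤ _ := h1
    _ ≤ 4 * ((N:ℝ) ^ ε * (N * W.card)) +
        (∑ j ∈ range J, 4 * |C j|) * ((N:ℝ) ^ ε * (N:ℝ) ^ 2) := add_le_add h4 h3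
    _ ≤ _ := by nlinarith

end Pool.Agent.E8helper49.LV
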