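import Pool.Agent.H758R2.Groth

/-!
Finite matrices as operators from `ℓ_∞` to `ℓ_1`: cut norm, Grothendieck-Pietsch weights on one
side, Hilbert space valued form, and tensor products with any number of factors.
-/

set_option autoImplicit false

open Finset

namespace Pool.Agent.E8helper49.LV

open Pool.Agent.H758R2.Groth

section one

variable {α β : Type} [DecidableEq α] [DecidableEq β]

/-- some subset of the terms has a large sum -/
lemma exists_sub {α : Type} [DecidableEq α] (W : Finset α) (z : α → ℂ) :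
    ∃ W' ⊆ W, ∑ t ∈ W, ‖z t‖ ≤ 4 * ‖∑ t ∈ W', z t‖ := by
  have key : ∀ g : ℂ →+ ℝ, (∀ w, g w ≤ ‖w‖) →
      ∃ W' ⊆ W, ∑ t ∈ W, max (g (z t)) 0 ≤ ‖∑ t ∈ W', z t‖ := by
    intro g hg
    refine ⟨W.filter (fun t => 0 < g (z t)), filter_subset _ _, ?_⟩
    refine le_trans (le_of_eq ?_) (hg _)
    rw [map_sum, sum_filter]
    refine sum_congr rfl fun t _ => ?_
    split_ifs with h
    · exact max_eq_left h.le
    · exact max_eq_right (not_lt.1 h)
  obtain ⟨W1, h1, k1⟩ := key Complex.reAddGroupHom (fun w => Complex.re_le_norm w)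
  obtain ⟨W2, h2, k2⟩ := key (-Complex.reAddGroupHom) (fun w => by
    have := Complex.abs_re_le_norm w
    have h := neg_abs_le w.re
    simp only [AddMonoidHom.neg_apply, Complex.coe_reAddGroupHom]
    linarith)
  obtain ⟨W3, h3, k3⟩ := key Complex.imAddGroupHom (fun w => Complex.im_le_norm w)
  obtain ⟨W4, h4, k4⟩ := key (-Complex.imAddGroupHom) (fun w => by
    have := Complex.abs_im_le_norm w
    have h := neg_abs_le w.im
    simp only [AddMonoidHom.neg_apply, Complex.coe_imAddGroupHom]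
    linarith)
  have hsum : ∑ t ∈ W, ‖z t‖ ≤ ∑ t ∈ W, max (Complex.reAddGroupHom (z t)) 0 +
      ∑ t ∈ W, max ((-Complex.reAddGroupHom) (z t)) 0 +
      (∑ t ∈ W, max (Complex.imAddGroupHom (z t)) 0 +
      ∑ t ∈ W, max ((-Complex.imAddGroupHom) (z t)) 0) := by
    rw [← sum_add_distrib, ← sum_add_distrib, ← sum_add_distrib]
    refine sum_le_sum fun t _ => ?_
    have h := Complex.norm_le_abs_re_add_abs_im (z t)
    have e : ∀ x : ℝ, |x| = max x 0 + max (-x) 0 := by
      intro x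
      rcases le_total 0 x with h | h
      · rw [abs_of_nonneg h, max_eq_left h, max_eq_right (by linarith)]; ring
      · rw [abs_of_nonpos h, max_eq_right h, max_eq_left (by linarith)]; ring
    simp only [AddMonoidHom.neg_apply, Complex.coe_reAddGroupHom, Complex.coe_imAddGroupHom]
    rw [e, e] at h
    linarith
  set m := max (max ‖∑ t ∈ W1, z t‖ ‖∑ t ∈ W2, z t‖) (max ‖∑ t ∈ W3, z t‖ ‖∑ t ∈ W4, z t‖)
    with hm
  have h5 : ∑ t ∈ W, ‖z t‖ ≤ 4 * m := by
    have a1 : ‖∑ t ∈ W1, z t‖ ≤ m := le_max_of_le_left (le_max_left _ _)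
    have a2 : ‖∑ t ∈ W2, z t‖ ≤ m := le_max_of_le_left (le_max_right _ _)
    have a3 : ‖∑ t ∈ W3, z t‖ ≤ m := le_max_of_le_right (le_max_left _ _)
    have a4 : ‖∑ t ∈ W4, z t‖ ≤ m := le_max_of_le_right (le_max_right _ _)
    linarith
  rcases max_choice (max ‖∑ t ∈ W1, z t‖ ‖∑ t ∈ W2, z t‖)
    (max ‖∑ t ∈ W3, z t‖ ‖∑ t ∈ W4, z t‖) with h | h
  · rw [h] at hm
    rcases max_choice ‖∑ t ∈ W1, z t‖ ‖∑ t ∈ W2, z t‖ with h' | h'
    · exact ⟨W1, h1, by rw [hm, h'] at h5; exact h5⟩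
    · exact ⟨W2, h2, by rw [hm, h'] at h5; exact h5⟩
  · rw [h] at hm
    rcases max_choice ‖∑ t ∈ W3, z t‖ ‖∑ t ∈ W4, z t‖ with h' | h'
    · exact ⟨W3, h3, by rw [hm, h'] at h5; exact h5⟩
    · exact ⟨W4, h4, by rw [hm, h'] at h5; exact h5⟩

/-- from the cut norm to the norm `ℓ_∞ → ℓ_1` -/
lemma one_of_cut (W : Finset α) (I : Finset β) (K : α → β → ℂ) (b : β → ℂ)
    (hb : ∀ n, ‖b n‖ ≤ 1) :
    ∃ W' ⊆ W, ∃ S ⊆ I, ∑ t ∈ W, ‖∑ n ∈ I, b n * K t n‖ ≤ 16 * ‖∑ t ∈ W', ∑ n ∈ S, K t n‖ := by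
  obtain ⟨W', hW', h1⟩ := exists_sub W (fun t => ∑ n ∈ I, b n * K t n)
  obtain ⟨S, hS, h2⟩ := exists_sub I (fun n => ∑ t ∈ W', K t n)
  refine ⟨W', hW', S, hS, h1.trans ?_⟩
  have h3 : ‖∑ t ∈ W', ∑ n ∈ I, b n * K t n‖ ≤ ∑ n ∈ I, ‖∑ t ∈ W', K t n‖ := by
    rw [sum_comm]
    refine (norm_sum_le _ _).trans (sum_le_sum fun n _ => ?_)
    rw [← mul_sum, norm_mul]
    exact mul_le_of_le_one_left (norm_nonneg _) (hb n)
  have h4 : ∑ n ∈ S, ∑ t ∈ W', K t n = ∑ t ∈ W', ∑ n ∈ S, K t n := sum_comm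
  rw [h4] at h2
  linarith

/-- the bound for the operator norm `ℓ_∞(I) → ℓ_1(W)` -/
def FB (W : Finset α) (I : Finset β) (K : α → β → ℂ) (M : ℝ) : Prop :=
  ∀ b : β → ℂ, (∀ n, ‖b n‖ ≤ 1) → ∑ t ∈ W, ‖∑ n ∈ I, b n * K t n‖ ≤ M

omit [DecidableEq α] [DecidableEq β] in
lemma FB.bbound {W : Finset α} {I : Finset β} {K : α → β → ℂ} {M : ℝ} (h : FB W I K M) :
    BBound (fun (t : W) (n : I) => K t n) M := by
  classical
  intro x y hx hy
  have h1 := h (fun n => if hn : n ∈ I then y ⟨n, hn⟩ else 0) (fun n => by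
    split_ifs with hn
    · exact hy _
    · simp)
  refine le_trans ?_ h1
  rw [← sum_coe_sort W (fun t => ‖∑ n ∈ I, (if hn : n ∈ I then y ⟨n, hn⟩ else 0) * K t n‖)]
  refine (norm_sum_le _ _).trans (sum_le_sum fun t _ => ?_)
  have e : ∑ n : I, K t n * x t * y n = x t * ∑ n ∈ I,
      (if hn : n ∈ I then y ⟨n, hn⟩ else 0) * K t n := by
    rw [mul_sum, ← sum_coe_sort I]
    refine sum_congr rfl fun n _ => ?_
    rw [dif_pos n.2]
    ring
  rw [e, norm_mul]
  exact mul_le_of_le_one_left (norm_nonneg _) (hx t)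

omit [DecidableEq α] [DecidableEq β] in
lemma FB.of_bbound {W : Finset α} {I : Finset β} {K : α → β → ℂ} {M : ℝ}
    (h : ∀ (x : α → ℂ) (y : β → ℂ), (∀ t, ‖x t‖ ≤ 1) → (∀ n, ‖y n‖ ≤ 1) →
      ‖∑ t ∈ W, ∑ n ∈ I, K t n * x t * y n‖ ≤ M) : FB W I K M := by
  intro b hb
  have hph : ∀ z : ℂ, ∃ u : ℂ, ‖u‖ ≤ 1 ∧ u * z = ‖z‖ := by
    intro z
    by_cases hz : z = 0
    · exact ⟨0, by simp, by simp [hz]⟩
    · refine ⟨(‖z‖ : ℂ) / z, ?_, ?_⟩
      · rw [norm_div, Complex.norm_real, norm_norm, div_self (norm_ne_zero_iff.2 hz)]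
      · rw [div_mul_cancel₀ _ hz]
  choose u hu1 hu2 using hph
  have h1 := h (fun t => u (∑ n ∈ I, b n * K t n)) b (fun t => hu1 _) hb
  have e : ∑ t ∈ W, ∑ n ∈ I, K t n * u (∑ n ∈ I, b n * K t n) * b n =
      ((∑ t ∈ W, ‖∑ n ∈ I, b n * K t n‖ : ℝ) : ℂ) := by
    push_cast
    refine sum_congr rfl fun t _ => ?_
    rw [← hu2, mul_sum]
    refine sum_congr rfl fun n _ => ?_
    ring
  rw [e, Complex.norm_real, Real.norm_of_nonneg (sum_nonneg fun t _ => norm_nonneg _)] at h1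
  exact h1

/-- one step of the extraction of the weights -/
lemma weights_step (W : Finset α) (hW : W.Nonempty) (I : Finset β) (hI : I.Nonempty)
    (K : α → β → ℂ) {M : ℝ} (hM : 0 < M) (h : FB W I K M) :
    ∃ (W' : Finset α) (mu : β → ℝ), W' ⊆ W ∧ 2 * W'.card < W.card ∧ (∀ n, 0 ≤ mu n) ∧
      ∑ n ∈ I, mu n = 1 ∧ ∀ b : β → ℂ, ∑ t ∈ W \ W', ‖∑ n ∈ I, b n * K t n‖ ^ 2 ≤
        2 * (96 * M) ^ 2 / W.card * ∑ n ∈ I, mu n * ‖b n‖ ^ 2 := by
  classical
  have : Nonempty W := hW.to_subtype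
  have : Nonempty I := hI.to_subtype
  have hB := h.bbound
  obtain ⟨lam, mu, hl0, hm0, hl1, hm1, hform⟩ := pietsch _ (groth _ hB)
  set R : ℝ := (W.card : ℝ) with hR
  have hR0 : 0 < R := by rw [hR]; exact_mod_cast hW.card_pos
  set l : α → ℝ := fun t => if ht : t ∈ W then lam ⟨t, ht⟩ else 0 with hl
  have hlsum : ∑ t ∈ W, l t = 1 := by
    rw [← hl1, ← sum_coe_sort W]
    refine sum_congr rfl fun t _ => ?_
    simp only [hl]
    rw [dif_pos t.2]
  have hl0' : ∀ t, 0 ≤ l t := fun t => by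
    simp only [hl]; split_ifs; exacts [hl0 _, le_refl _]
  refine ⟨W.filter (fun t => 2 / R < l t), fun n => if hn : n ∈ I then mu ⟨n, hn⟩ else 0,
    filter_subset _ _, ?_, ?_, ?_, ?_⟩
  · -- the exceptional set is small
    have h1 : ∑ t ∈ W.filter (fun t => 2 / R < l t), l t ≤ 1 := by
      rw [← hlsum]
      exact sum_le_sum_of_subset_of_nonneg (filter_subset _ _) fun t _ _ => hl0' t
    by_contra hcon
    push Not at hcon
    have hcon' : R ≤ 2 * ((W.filter (fun t => 2 / R < l t)).card : ℝ) := by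
      rw [hR]; exact_mod_cast hcon
    have hne : (W.filter (fun t => 2 / R < l t)).Nonempty := by
      rw [← card_pos]
      by_contra h0
      have : (W.filter (fun t => 2 / R < l t)).card = 0 := by omega
      rw [this] at hcon'
      simp at hcon'
      linarith
    have h2 : ((W.filter (fun t => 2 / R < l t)).card : ℝ) * (2 / R) <
        ∑ t ∈ W.filter (fun t => 2 / R < l t), l t := by
      rw [← nsmul_eq_mul]
      rw [← sum_const]
      exact sum_lt_sum_of_nonempty hne fun t ht => (mem_filter.1 ht).2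
    have h3 : 1 ≤ ((W.filter (fun t => 2 / R < l t)).card : ℝ) * (2 / R) := by
      rw [mul_div_assoc', le_div_iff₀ hR0]
      linarith
    linarith
  · intro n
    dsimp only
    split_ifs
    exacts [hm0 _, le_refl _]
  · rw [← hm1, ← sum_coe_sort I]
    refine sum_congr rfl fun n _ => ?_
    rw [dif_pos n.2]
  · intro b
    set D : α → ℂ := fun t => ∑ n ∈ I, b n * K t n with hD
    set X : ℝ := ∑ t ∈ W \ W.filter (fun t => 2 / R < l t), ‖D t‖ ^ 2 with hX
    set Y : ℝ := ∑ n ∈ I, (if hn : n ∈ I then mu ⟨n, hn⟩ else 0) * ‖b n‖ ^ 2 with hY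
    have hY0 : 0 ≤ Y := sum_nonneg fun n hn => by
      rw [dif_pos hn]
      exact mul_nonneg (hm0 _) (by positivity)
    have hK : (0 : ℝ) < 96 * M := by positivity
    set k : ℝ := 96 * M with hk
    set c : ℝ := R / (2 * k) with hc
    have hc0 : 0 < c := by positivity
    have h1 := hform (fun t => if 2 / R < l t then 0 else (c : ℂ) * (starRingEnd ℂ) (D t))
      (fun n => b n)
    have e1 : (B (fun (t : W) (n : I) => K t n)
        (fun t => if 2 / R < l t then 0 else (c : ℂ) * (starRingEnd ℂ) (D t))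
        (fun n => b n)) = ((c * X : ℝ) : ℂ) := by
      unfold B
      have e2 : ∀ t : W, ∑ n : I, K t n *
          (if 2 / R < l t then 0 else (c : ℂ) * (starRingEnd ℂ) (D t)) * b n =
          if 2 / R < l t then 0 else ((c * ‖D t‖ ^ 2 : ℝ) : ℂ) := by
        intro t
        have e3 : ∑ n : I, K t n *
          (if 2 / R < l t then 0 else (c : ℂ) * (starRingEnd ℂ) (D t)) * b n =
          (if 2 / R < l t then 0 else (c : ℂ) * (starRingEnd ℂ) (D t)) * D t := by
          rw [hD]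
          dsimp only
          rw [mul_sum, ← sum_coe_sort I (fun n => (if 2 / R < l t then 0 else (c : ℂ) *
            (starRingEnd ℂ) (∑ n ∈ I, b n * K t n)) * (b n * K t n))]
          refine sum_congr rfl fun n _ => ?_
          ring
        rw [e3]
        split_ifs
        · simp
        · rw [mul_assoc, mul_comm ((starRingEnd ℂ) (D t)), Complex.mul_conj,
            Complex.normSq_eq_norm_sq]
          push_cast
          ring
      rw [sum_congr rfl fun t _ => e2 t]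
      rw [sum_coe_sort W (fun t => if 2 / R < l t then (0 : ℂ) else ((c * ‖D t‖ ^ 2 : ℝ) : ℂ))]
      rw [hX, sdiff_eq_filter, sum_filter, mul_sum]
      push_cast
      refine sum_congr rfl fun t ht => ?_
      by_cases hlt : 2 / R < l t
      · simp [hlt, ht]
      · simp [hlt]
    rw [e1, Complex.ofReal_re] at h1
    have e4 : ∑ t : W, lam t * ‖(if 2 / R < l t then 0 else (c : ℂ) * (starRingEnd ℂ) (D t) : ℂ)‖ ^ 2
        ≤ 2 / R * (c ^ 2 * X) := by
      rw [hX, sdiff_eq_filter, sum_filter, mul_sum, mul_sum,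
        ← sum_coe_sort W (fun t => 2 / R * (c ^ 2 * _))]
      refine sum_le_sum fun t _ => ?_
      have hlt' : l t = lam t := by simp only [hl]; rw [dif_pos t.2]
      by_cases hlt : 2 / R < l t
      · simp [hlt]
      · have h5 : lam t ≤ 2 / R := by rw [← hlt']; exact not_lt.1 hlt
        simp only [hlt, if_false, mem_filter, and_false, not_false_eq_true, if_true]
        rw [norm_mul, Complex.norm_real, Real.norm_of_nonneg hc0.le, RCLike.norm_conj, mul_pow]
        exact mul_le_mul_of_nonneg_right h5 (by positivity)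
    have e5 : ∑ n : I, mu n * ‖b n‖ ^ 2 = Y := by
      rw [hY, ← sum_coe_sort I]
      refine sum_congr rfl fun n _ => ?_
      rw [dif_pos n.2]
    rw [e5] at h1
    have h6 : c * X ≤ k / 2 * (2 / R * (c ^ 2 * X) + Y) := by
      refine h1.trans ?_
      apply mul_le_mul_of_nonneg_left _ (by positivity)
      linarith
    have h7 : k / 2 * (2 / R * (c ^ 2 * X)) = c * X / 2 := by
      rw [hc]; field_simp
    have h8 : c * X ≤ k * Y := by
      rw [mul_add, h7] at h6
      linarith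
    have h9 : X ≤ 2 * k ^ 2 / R * Y := by
      rw [hc, div_mul_eq_mul_div, div_le_iff₀ (by positivity)] at h8
      rw [div_mul_eq_mul_div, le_div_iff₀ hR0]
      linarith
    exact h9

/-- **Weights.** If every subset `V` of `W` satisfies the `ℓ_∞ → ℓ_1` bound with a constant
`M (card V)` where `2 (96 M r)^2 / r ≤ G` for `r ≤ card W`, then there are probability weights for
the whole of `W`. -/
lemma weights (I : Finset β) (hI : I.Nonempty) (K : α → β → ℂ) (M : ℕ → ℝ)
    (hM : ∀ r, 0 < r → 0 < M r) (G : ℝ) (hG : 0 ≤ G) :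
    ∀ (r : ℕ) (W : Finset α), W.card = r → (∀ V ⊆ W, FB V I K (M V.card)) →
      (∀ s, 0 < s → s ≤ r → 2 * (96 * M s) ^ 2 / s ≤ G) →
      ∃ mu : β → ℝ, (∀ n, 0 ≤ mu n) ∧ ∑ n ∈ I, mu n = 1 ∧ ∀ b : β → ℂ,
        ∑ t ∈ W, ‖∑ n ∈ I, b n * K t n‖ ^ 2 ≤
          G * (Nat.log 2 r + 1) * ∑ n ∈ I, mu n * ‖b n‖ ^ 2 := by
  intro r
  induction r using Nat.strong_induction_on with
  | _ r ih =>
    intro W hWr hFB hMG
    obtain ⟨n0, hn0⟩ := hI
    rcases W.eq_empty_or_nonempty with rfl | hW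
    · refine ⟨fun n => if n = n0 then 1 else 0, fun n => by dsimp only; split_ifs <;> norm_num,
        ?_, fun b => ?_⟩
      · rw [sum_ite_eq' I n0]; simp [hn0]
      · rw [sum_empty]
        have : 0 ≤ ∑ n ∈ I, (if n = n0 then (1 : ℝ) else 0) * ‖b n‖ ^ 2 :=
          sum_nonneg fun n _ => by split_ifs <;> simp
        positivity
    · have hr0 : 0 < r := by rw [← hWr]; exact hW.card_pos
      obtain ⟨W', mu, hW', hcard, hm0, hm1, hstep⟩ :=
        weights_step W hW I ⟨n0, hn0⟩ K (hM _ hW.card_pos) (hFB W (Subset.refl _))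
      rw [hWr] at hstep hcard
      obtain ⟨mu', hm0', hm1', hrec⟩ := ih W'.card (by omega) W' rfl
        (fun V hV => hFB V (hV.trans hW')) (fun s hs0 hs => hMG s hs0 (by omega))
      have hG1 := hMG r hr0 le_rfl
      rcases W'.eq_empty_or_nonempty with rfl | hWn'
      · refine ⟨mu, hm0, hm1, fun b => ?_⟩
        have h1 := hstep b
        rw [sdiff_empty] at h1
        refine h1.trans ?_
        have h2 : 0 ≤ ∑ n ∈ I, mu n * ‖b n‖ ^ 2 :=
          sum_nonneg fun n _ => mul_nonneg (hm0 n) (by positivity)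
        apply mul_le_mul_of_nonneg_right _ h2
        have h3 : (1 : ℝ) ≤ (Nat.log 2 r : ℝ) + 1 := by
          have : (0 : ℝ) ≤ (Nat.log 2 r : ℝ) := Nat.cast_nonneg _
          linarith
        nlinarith
      · set L : ℝ := (Nat.log 2 W'.card : ℝ) + 1 with hL
        have hL0 : 0 < L := by positivity
        have hlog : L ≤ (Nat.log 2 r : ℝ) := by
          have h1 : Nat.log 2 W'.card + 1 = Nat.log 2 (W'.card * 2) := by
            rw [Nat.log_mul_base (by norm_num) hWn'.card_pos.ne']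
          have h2 : Nat.log 2 (W'.card * 2) ≤ Nat.log 2 r := Nat.log_mono_right (by omega)
          rw [hL]
          have : Nat.log 2 W'.card + 1 ≤ Nat.log 2 r := by omega
          exact_mod_cast this
        refine ⟨fun n => (mu n + L * mu' n) / (1 + L), fun n => ?_, ?_, fun b => ?_⟩
        · have := hm0 n; have := hm0' n; positivity
        · rw [← sum_div, sum_add_distrib, ← mul_sum, hm1, hm1', mul_one,
            div_self (by positivity)]
        · have h1 := hstep b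
          have h2 := hrec b
          have h3 : ∑ t ∈ W, ‖∑ n ∈ I, b n * K t n‖ ^ 2 =
              ∑ t ∈ W \ W', ‖∑ n ∈ I, b n * K t n‖ ^ 2 +
                ∑ t ∈ W', ‖∑ n ∈ I, b n * K t n‖ ^ 2 := (sum_sdiff hW').symm
          have hA : 0 ≤ ∑ n ∈ I, mu n * ‖b n‖ ^ 2 :=
            sum_nonneg fun n _ => mul_nonneg (hm0 n) (by positivity)
          have hA' : 0 ≤ ∑ n ∈ I, mu' n * ‖b n‖ ^ 2 :=
            sum_nonneg fun n _ => mul_nonneg (hm0' n) (by positivity)
          have h4 : ∑ n ∈ I, (mu n + L * mu' n) / (1 + L) * ‖b n‖ ^ 2 =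
              (∑ n ∈ I, mu n * ‖b n‖ ^ 2 + L * ∑ n ∈ I, mu' n * ‖b n‖ ^ 2) / (1 + L) := by
            rw [mul_sum, ← sum_add_distrib, sum_div]
            refine sum_congr rfl fun n _ => ?_
            ring
          rw [h3, h4]
          have h5 : ∑ t ∈ W \ W', ‖∑ n ∈ I, b n * K t n‖ ^ 2 ≤ G * ∑ n ∈ I, mu n * ‖b n‖ ^ 2 :=
            h1.trans (mul_le_mul_of_nonneg_right hG1 hA)
          have h6 : ∑ t ∈ W', ‖∑ n ∈ I, b n * K t n‖ ^ 2 ≤
              G * L * ∑ n ∈ I, mu' n * ‖b n‖ ^ 2 := h2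
          have h7 : G * ((Nat.log 2 r : ℝ) + 1) *
              ((∑ n ∈ I, mu n * ‖b n‖ ^ 2 + L * ∑ n ∈ I, mu' n * ‖b n‖ ^ 2) / (1 + L)) ≥
              G * (∑ n ∈ I, mu n * ‖b n‖ ^ 2 + L * ∑ n ∈ I, mu' n * ‖b n‖ ^ 2) := by
            rw [mul_div_assoc', ge_iff_le, le_div_iff₀ (by positivity)]
            have h8 : 0 ≤ G * (∑ n ∈ I, mu n * ‖b n‖ ^ 2 +
                L * ∑ n ∈ I, mu' n * ‖b n‖ ^ 2) := by positivity
            have h9 : 1 + L ≤ (Nat.log 2 r : ℝ) + 1 := by linarith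
            nlinarith
          nlinarith

end one

end Pool.Agent.E8helper49.LV
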