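import Pool.Agent.E8helper49.LV.Fun

/-!
The little Grothendieck inequality for finite matrices (from the factorisation theorem of
`H758R2.Groth`), its dual form, and the Hilbert space valued and `k`-parameter consequences.
-/

set_option autoImplicit false

open Finset

namespace Pool.Agent.E8helper49.LV

open Pool.Agent.H758R2.Groth

/-- little Grothendieck inequality -/
lemma little {α β : Type} (W : Finset α) (I : Finset β) (hI : I.Nonempty)
    (K : α → β → ℂ) {G : ℝ}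
    (h : ∀ b : β → ℂ, (∀ n, ‖b n‖ ≤ 1) → ∑ t ∈ W, ‖∑ n ∈ I, b n * K t n‖ ^ 2 ≤ G) :
    ∃ mu : β → ℝ, (∀ n, 0 ≤ mu n) ∧ ∑ n ∈ I, mu n = 1 ∧
      ∀ b : β → ℂ, ∑ t ∈ W, ‖∑ n ∈ I, b n * K t n‖ ^ 2 ≤ 96 * G * ∑ n ∈ I, mu n * ‖b n‖ ^ 2 := by
  classical
  have i1 : Nonempty I := hI.to_subtype
  set P : I → I → ℂ := fun n m => ∑ t ∈ W, (starRingEnd ℂ) (K t n) * K t m with hP
  have key : ∀ x y : I → ℂ, ∑ n, ∑ m, P n m * x n * y m =
      ∑ t ∈ W, (starRingEnd ℂ) (∑ n : I, (starRingEnd ℂ) (x n) * K t n) *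
        (∑ n : I, y n * K t n) := by
    intro x y
    have e1 : ∀ n m : I, P n m * x n * y m =
        ∑ t ∈ W, ((starRingEnd ℂ) ((starRingEnd ℂ) (x n) * K t n)) * (y m * K t m) := by
      intro n m
      rw [hP]
      dsimp only
      rw [sum_mul, sum_mul]
      refine sum_congr rfl fun t _ => ?_
      rw [map_mul, Complex.conj_conj]
      ring
    rw [sum_congr rfl fun n _ => sum_congr rfl fun m _ => e1 n m]
    rw [sum_congr rfl fun n _ => sum_comm, sum_comm]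
    refine sum_congr rfl fun t _ => ?_
    rw [map_sum, sum_mul_sum]
  have ext : ∀ x : I → ℂ, (∀ n, ‖x n‖ ≤ 1) →
      ∑ t ∈ W, ‖∑ n : I, x n * K t n‖ ^ 2 ≤ G := by
    intro x hx
    have h1 := h (fun n => if hn : n ∈ I then x ⟨n, hn⟩ else 0) (fun n => by
      split_ifs with hn
      · exact hx _
      · simp)
    refine le_trans (le_of_eq (sum_congr rfl fun t _ => ?_)) h1
    congr 2
    rw [← sum_coe_sort I (fun n => (if hn : n ∈ I then x ⟨n, hn⟩ else 0) * K t n)]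
    refine sum_congr rfl fun n _ => ?_
    rw [dif_pos n.2]
  have hB : BBound P G := by
    intro x y hx hy
    rw [key]
    refine (norm_sum_le _ _).trans ?_
    have h1 := ext (fun n => (starRingEnd ℂ) (x n)) (fun n => by rw [RCLike.norm_conj]; exact hx n)
    have h2 := ext y hy
    have h3 : ∑ t ∈ W, ‖(starRingEnd ℂ) (∑ n : I, (starRingEnd ℂ) (x n) * K t n) *
        (∑ n : I, y n * K t n)‖ ≤
        (∑ t ∈ W, ‖∑ n : I, (starRingEnd ℂ) (x n) * K t n‖ ^ 2 +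
          ∑ t ∈ W, ‖∑ n : I, y n * K t n‖ ^ 2) / 2 := by
      rw [← sum_add_distrib, sum_div]
      refine sum_le_sum fun t _ => ?_
      rw [norm_mul, RCLike.norm_conj]
      nlinarith [sq_nonneg (‖∑ n : I, (starRingEnd ℂ) (x n) * K t n‖ - ‖∑ n : I, y n * K t n‖)]
    linarith
  obtain ⟨lam, mu, hl0, hm0, hl1, hm1, hform⟩ := pietsch P (groth P hB)
  refine ⟨fun n => if hn : n ∈ I then (lam ⟨n, hn⟩ + mu ⟨n, hn⟩) / 2 else 0, fun n => ?_, ?_,
    fun b => ?_⟩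
  · dsimp only
    split_ifs
    · have := hl0 ⟨n, by assumption⟩
      have := hm0 ⟨n, by assumption⟩
      positivity
    · exact le_refl _
  · rw [← sum_coe_sort I (fun n => if hn : n ∈ I then (lam ⟨n, hn⟩ + mu ⟨n, hn⟩) / 2 else 0)]
    have : ∀ n : I, (if hn : (n : β) ∈ I then (lam ⟨n, hn⟩ + mu ⟨n, hn⟩) / 2 else 0) =
        (lam n + mu n) / 2 := fun n => by rw [dif_pos n.2]
    rw [sum_congr rfl fun n _ => this n, ← sum_div, sum_add_distrib, hl1, hm1]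
    norm_num
  · have h1 := hform (fun n => (starRingEnd ℂ) (b n)) (fun n => b n)
    have e1 : B P (fun n : I => (starRingEnd ℂ) (b n)) (fun n : I => b n) =
        ((∑ t ∈ W, ‖∑ n ∈ I, b n * K t n‖ ^ 2 : ℝ) : ℂ) := by
      unfold B
      rw [key]
      push_cast
      refine sum_congr rfl fun t _ => ?_
      simp only [Complex.conj_conj]
      rw [sum_coe_sort I (fun n => b n * K t n), mul_comm, Complex.mul_conj,
        Complex.normSq_eq_norm_sq]
      push_cast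
      rfl
    rw [e1, Complex.ofReal_re] at h1
    refine h1.trans (le_of_eq ?_)
    rw [← sum_coe_sort I (fun n => (if hn : n ∈ I then (lam ⟨n, hn⟩ + mu ⟨n, hn⟩) / 2 else 0) *
      ‖b n‖ ^ 2)]
    have : ∀ n : I, (if hn : (n : β) ∈ I then (lam ⟨n, hn⟩ + mu ⟨n, hn⟩) / 2 else 0) *
        ‖b n‖ ^ 2 = (lam n * ‖b n‖ ^ 2 + mu n * ‖b n‖ ^ 2) / 2 := fun n => by
      rw [dif_pos n.2]; ring
    rw [sum_congr rfl fun n _ => this n, ← sum_div, sum_add_distrib]
    simp only [RCLike.norm_conj]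
    ring

/-- duality: from the weighted bound to the dual weighted bound -/
lemma dual_of {α β : Type} (W : Finset α) (I : Finset β) (K : α → β → ℂ) {G : ℝ} (hG : 0 ≤ G)
    (mu : β → ℝ) (hmu : ∀ n ∈ I, 0 < mu n)
    (h : ∀ b : β → ℂ, ∑ t ∈ W, ‖∑ n ∈ I, b n * K t n‖ ^ 2 ≤ G * ∑ n ∈ I, mu n * ‖b n‖ ^ 2)
    (c : α → ℂ) :
    ∑ n ∈ I, ‖∑ t ∈ W, c t * K t n‖ ^ 2 / mu n ≤ G * ∑ t ∈ W, ‖c t‖ ^ 2 := by
  set g : β → ℂ := fun n => ∑ t ∈ W, c t * K t n with hg
  set X : ℝ := ∑ n ∈ I, ‖g n‖ ^ 2 / mu n with hX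
  have hX0 : 0 ≤ X := sum_nonneg fun n hn => by have := hmu n hn; positivity
  set b : β → ℂ := fun n => (starRingEnd ℂ) (g n) / (mu n : ℂ) with hb
  have e1 : ((X : ℝ) : ℂ) = ∑ t ∈ W, c t * ∑ n ∈ I, b n * K t n := by
    have : ∀ t ∈ W, c t * ∑ n ∈ I, b n * K t n = ∑ n ∈ I, b n * (c t * K t n) := fun t _ => by
      rw [mul_sum]; exact sum_congr rfl fun n _ => by ring
    rw [sum_congr rfl this, sum_comm, hX]
    push_cast
    refine sum_congr rfl fun n _ => ?_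
    rw [← mul_sum, hb]
    dsimp only
    rw [div_mul_eq_mul_div]
    congr 1
    rw [mul_comm]
    change _ = g n * _
    rw [Complex.mul_conj, Complex.normSq_eq_norm_sq]
    push_cast
    rfl
  have e2 : ∑ n ∈ I, mu n * ‖b n‖ ^ 2 = X := by
    rw [hX]
    refine sum_congr rfl fun n hn => ?_
    have := hmu n hn
    rw [hb]
    dsimp only
    rw [norm_div, RCLike.norm_conj, Complex.norm_real, Real.norm_of_nonneg this.le]
    field_simp
  have h1 : X ≤ ∑ t ∈ W, ‖c t‖ * ‖∑ n ∈ I, b n * K t n‖ := by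
    have : X = ‖((X : ℝ) : ℂ)‖ := by rw [Complex.norm_real, Real.norm_of_nonneg hX0]
    rw [this, e1]
    refine (norm_sum_le _ _).trans (le_of_eq (sum_congr rfl fun t _ => norm_mul _ _))
  have h2 := sum_mul_sq_le_sq_mul_sq W (fun t => ‖c t‖) (fun t => ‖∑ n ∈ I, b n * K t n‖)
  have h3 := h b
  rw [e2] at h3
  have h4 : X ^ 2 ≤ (∑ t ∈ W, ‖c t‖ ^ 2) * (G * X) := by
    refine le_trans ?_ (h2.trans (mul_le_mul_of_nonneg_left h3 (by positivity)))
    exact pow_le_pow_left₀ hX0 h1 2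
  rcases hX0.eq_or_lt with h0 | h0
  · rw [← h0]; positivity
  · have h5 : X * X ≤ (G * ∑ t ∈ W, ‖c t‖ ^ 2) * X := by nlinarith
    exact le_of_mul_le_mul_right h5 h0

/-- duality: from the dual weighted bound to the mean square with bounded coefficients -/
lemma ms_of_dual {α β : Type} (W : Finset α) (I : Finset β) (K : α → β → ℂ) {G : ℝ}
    (hG : 0 ≤ G) (mu : β → ℝ) (hmu : ∀ n ∈ I, 0 < mu n) (hmu1 : ∑ n ∈ I, mu n = 1)
    (h : ∀ c : α → ℂ, ∑ n ∈ I, ‖∑ t ∈ W, c t * K t n‖ ^ 2 / mu n ≤ G * ∑ t ∈ W, ‖c t‖ ^ 2)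
    (b : β → ℂ) (hb : ∀ n, ‖b n‖ ≤ 1) :
    ∑ t ∈ W, ‖∑ n ∈ I, b n * K t n‖ ^ 2 ≤ G := by
  set D : α → ℂ := fun t => ∑ n ∈ I, b n * K t n with hD
  set X : ℝ := ∑ t ∈ W, ‖D t‖ ^ 2 with hX
  have hX0 : 0 ≤ X := sum_nonneg fun t _ => by positivity
  set c : α → ℂ := fun t => (starRingEnd ℂ) (D t) with hc
  have e1 : ((X : ℝ) : ℂ) = ∑ n ∈ I, b n * ∑ t ∈ W, c t * K t n := by
    have : ∀ n ∈ I, b n * ∑ t ∈ W, c t * K t n = ∑ t ∈ W, c t * (b n * K t n) := fun t _ => by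
      rw [mul_sum]; exact sum_congr rfl fun n _ => by ring
    rw [sum_congr rfl this, sum_comm, hX]
    push_cast
    refine sum_congr rfl fun t _ => ?_
    rw [← mul_sum, hc]
    dsimp only
    change _ = _ * D t
    rw [mul_comm, Complex.mul_conj, Complex.normSq_eq_norm_sq]
    push_cast
    rfl
  have h1 : X ≤ ∑ n ∈ I, ‖∑ t ∈ W, c t * K t n‖ := by
    have : X = ‖((X : ℝ) : ℂ)‖ := by rw [Complex.norm_real, Real.norm_of_nonneg hX0]
    rw [this, e1]
    refine (norm_sum_le _ _).trans (sum_le_sum fun n _ => ?_)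
    rw [norm_mul]
    exact mul_le_of_le_one_left (norm_nonneg _) (hb n)
  have h2 := sum_mul_sq_le_sq_mul_sq I (fun n => √(mu n))
    (fun n => ‖∑ t ∈ W, c t * K t n‖ / √(mu n))
  have e3 : ∑ n ∈ I, √(mu n) * (‖∑ t ∈ W, c t * K t n‖ / √(mu n)) =
      ∑ n ∈ I, ‖∑ t ∈ W, c t * K t n‖ := sum_congr rfl fun n hn => by
    have := Real.sqrt_pos.2 (hmu n hn)
    field_simp
  have e4 : ∑ n ∈ I, √(mu n) ^ 2 = 1 := by
    rw [← hmu1]
    exact sum_congr rfl fun n hn => Real.sq_sqrt (hmu n hn).le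
  have e5 : ∑ n ∈ I, (‖∑ t ∈ W, c t * K t n‖ / √(mu n)) ^ 2 =
      ∑ n ∈ I, ‖∑ t ∈ W, c t * K t n‖ ^ 2 / mu n := sum_congr rfl fun n hn => by
    rw [div_pow, Real.sq_sqrt (hmu n hn).le]
  rw [e3, e4, e5, one_mul] at h2
  have h3 := h c
  have e6 : ∑ t ∈ W, ‖c t‖ ^ 2 = X := sum_congr rfl fun t _ => by
    rw [hc]; dsimp only; rw [RCLike.norm_conj]
  rw [e6] at h3
  have h4 : X ^ 2 ≤ G * X := (pow_le_pow_left₀ hX0 h1 2).trans (h2.trans h3)
  rcases hX0.eq_or_lt with h0 | h0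
  · rw [← h0]; exact hG
  · have h5 : X * X ≤ G * X := by nlinarith
    exact le_of_mul_le_mul_right h5 h0

/-- Hilbert space valued coefficients -/
lemma hilbert_of {α β : Type} (W : Finset α) (I : Finset β) (K : α → β → ℂ) {G : ℝ}
    (mu : β → ℝ)
    (h : ∀ b : β → ℂ, ∑ t ∈ W, ‖∑ n ∈ I, b n * K t n‖ ^ 2 ≤ G * ∑ n ∈ I, mu n * ‖b n‖ ^ 2)
    {H : Type} [NormedAddCommGroup H] [InnerProductSpace ℂ H] (b : β → H) :
    ∑ t ∈ W, ‖∑ n ∈ I, K t n • b n‖ ^ 2 ≤ G * ∑ n ∈ I, mu n * ‖b n‖ ^ 2 := by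
  classical
  set V : Submodule ℂ H := Submodule.span ℂ (b '' I) with hV
  have : FiniteDimensional ℂ V :=
    FiniteDimensional.span_of_finite ℂ (I.finite_toSet.image b)
  set e := stdOrthonormalBasis ℂ V with he
  have hbV : ∀ n ∈ I, b n ∈ V := fun n hn => Submodule.subset_span ⟨n, hn, rfl⟩
  set b' : β → V := fun n => if hn : n ∈ I then ⟨b n, hbV n hn⟩ else 0 with hb'
  have e1 : ∀ t, ‖∑ n ∈ I, K t n • b n‖ ^ 2 =
      ∑ i, ‖∑ n ∈ I, inner ℂ (e i) (b' n) * K t n‖ ^ 2 := by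
    intro t
    have : ∑ n ∈ I, K t n • b n = ((∑ n ∈ I, K t n • b' n : V) : H) := by
      push_cast
      refine sum_congr rfl fun n hn => ?_
      rw [hb']
      simp [hn]
    rw [this, Submodule.norm_coe, ← e.sum_sq_norm_inner_right]
    refine sum_congr rfl fun i _ => ?_
    rw [inner_sum]
    congr 2
    refine sum_congr rfl fun n _ => ?_
    rw [inner_smul_right]
    ring
  have e2 : ∀ n ∈ I, ‖b n‖ ^ 2 = ∑ i, ‖inner ℂ (e i) (b' n)‖ ^ 2 := by
    intro n hn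
    rw [e.sum_sq_norm_inner_right, hb']
    simp only [hn, dif_pos]
    rfl
  rw [sum_congr rfl fun t _ => e1 t, sum_comm]
  refine (sum_le_sum fun i _ => h (fun n => inner ℂ (e i) (b' n))).trans (le_of_eq ?_)
  rw [← mul_sum, sum_comm]
  congr 1
  refine sum_congr rfl fun n hn => ?_
  rw [e2 n hn, mul_sum]

/-- products of `k` kernels -/
lemma pi_of {α β : Type} (K : α → β → ℂ) : ∀ (k : ℕ) (W : Fin k → Finset α)
    (I : Fin k → Finset β) (G : Fin k → ℝ) (mu : Fin k → β → ℝ), (∀ i, 0 ≤ G i) →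
    (∀ i n, 0 ≤ mu i n) →
    (∀ i, ∀ b : β → ℂ, ∑ t ∈ W i, ‖∑ n ∈ I i, b n * K t n‖ ^ 2 ≤
      G i * ∑ n ∈ I i, mu i n * ‖b n‖ ^ 2) → ∀ b : (Fin k → β) → ℂ,
    ∑ t ∈ Fintype.piFinset W, ‖∑ n ∈ Fintype.piFinset I, b n * ∏ i, K (t i) (n i)‖ ^ 2 ≤
      (∏ i, G i) * ∑ n ∈ Fintype.piFinset I, (∏ i, mu i (n i)) * ‖b n‖ ^ 2 := by
  intro k
  induction k with
  | zero =>
    intro W I G mu _ _ _ b
    simp only [Fintype.piFinset_of_isEmpty, univ_unique, univ_eq_empty, prod_empty, mul_one,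
      sum_singleton, one_mul]
    exact le_rfl
  | succ k ih =>
    intro W I G mu hG hmu h b
    have e1 : ∀ (γ : Type) (V : Fin (k + 1) → Finset γ) (f : (Fin (k + 1) → γ) → ℝ),
        ∑ t ∈ Fintype.piFinset V, f t =
          ∑ t0 ∈ V 0, ∑ t ∈ Fintype.piFinset (fun i => V i.succ), f (Fin.cons t0 t) := by
      intro γ V f
      rw [← sum_product' (f := fun t0 t => f (Fin.cons t0 t))]
      refine sum_equiv (Fin.consEquiv (fun _ => γ)).symm (fun t => by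
        rw [Fin.mem_piFinset_iff_zero_tail, mem_product]; rfl) (fun t _ => ?_)
      simp [Fin.consEquiv]
    have e1' : ∀ (γ : Type) (V : Fin (k + 1) → Finset γ) (f : (Fin (k + 1) → γ) → ℂ),
        ∑ t ∈ Fintype.piFinset V, f t =
          ∑ t0 ∈ V 0, ∑ t ∈ Fintype.piFinset (fun i => V i.succ), f (Fin.cons t0 t) := by
      intro γ V f
      rw [← sum_product' (f := fun t0 t => f (Fin.cons t0 t))]
      refine sum_equiv (Fin.consEquiv (fun _ => γ)).symm (fun t => by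
        rw [Fin.mem_piFinset_iff_zero_tail, mem_product]; rfl) (fun t _ => ?_)
      simp [Fin.consEquiv]
    have e2 : ∀ (t0 : α) (t : Fin k → α),
        ∑ n ∈ Fintype.piFinset I, b n * ∏ i, K ((Fin.cons t0 t : Fin (k + 1) → α) i) (n i) =
          ∑ n0 ∈ I 0, (∑ n ∈ Fintype.piFinset (fun i => I i.succ), b (Fin.cons n0 n) *
            ∏ i, K (t i) (n i)) * K t0 n0 := by
      intro t0 t
      rw [e1' β I]
      refine sum_congr rfl fun n0 _ => ?_
      rw [sum_mul]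
      refine sum_congr rfl fun n _ => ?_
      rw [Fin.prod_univ_succ]
      simp only [Fin.cons_zero, Fin.cons_succ]
      ring
    rw [e1 α W]
    have e3 : ∀ t0 ∈ W 0, ∀ t ∈ Fintype.piFinset (fun i => W i.succ),
        ‖∑ n ∈ Fintype.piFinset I, b n * ∏ i, K ((Fin.cons t0 t : Fin (k + 1) → α) i) (n i)‖ ^ 2 =
        ‖∑ n0 ∈ I 0, (∑ n ∈ Fintype.piFinset (fun i => I i.succ), b (Fin.cons n0 n) *
            ∏ i, K (t i) (n i)) * K t0 n0‖ ^ 2 := fun t0 _ t _ => by rw [e2]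
    rw [sum_congr rfl fun t0 h0 => sum_congr rfl fun t ht => e3 t0 h0 t ht, sum_comm]
    refine (sum_le_sum fun t _ => h 0 (fun n0 => ∑ n ∈ Fintype.piFinset (fun i => I i.succ),
      b (Fin.cons n0 n) * ∏ i, K (t i) (n i))).trans ?_
    rw [← mul_sum, sum_comm, e1 β I, Fin.prod_univ_succ, mul_assoc]
    refine mul_le_mul_of_nonneg_left ?_ (hG 0)
    rw [mul_sum]
    refine sum_le_sum fun n0 _ => ?_
    rw [← mul_sum]
    have h1 := ih (fun i => W i.succ) (fun i => I i.succ) (fun i => G i.succ)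
      (fun i => mu i.succ) (fun i => hG _) (fun i n => hmu _ _) (fun i => h _)
      (fun n => b (Fin.cons n0 n))
    refine (mul_le_mul_of_nonneg_left h1 (hmu 0 n0)).trans (le_of_eq ?_)
    rw [mul_left_comm, mul_sum]
    congr 1
    refine sum_congr rfl fun n _ => ?_
    rw [Fin.prod_univ_succ]
    simp only [Fin.cons_zero, Fin.cons_succ]
    ring

end Pool.Agent.E8helper49.LV
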